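import Mathlib
import Pool.Agent.TH170.FW.Family
import Pool.Agent.TH170.QD.Use

/-!
# The crystalline Tate conjecture for all products of powers of abelian varieties over finite fields
with multiplication by arbitrary CM fields, for almost all slope types

Let `K` be a CM field of degree `2 g`; nothing is assumed about its Galois group. Let `M` be a
function with nonzero integral values on the embeddings of `K` in the algebraic closure of `ℚ_p`,
invariant under complex conjugation. A `p`-adic type `Φ` of `K` is a choice of one element out of
each complex conjugate pair of these embeddings; there are `2 ^ g` types. Together with `M` and a
real number `κ ≠ 0` it prescribes the slopes `(m + κ M) / 2` (on `Φ`) and `(m - κ M) / 2` (outside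
`Φ`) of a Weil number in `K` of weight `m`. By Honda and Tate the Weil numbers of weight one in `K`
are, up to roots of unity, those of the abelian varieties over finite fields of characteristic `p`
with multiplication by `K`. If `p` splits completely in `K` then all functions `λ` with rational
values in `[0, 1]` and `λ τ + λ (conj τ) = 1` occur as slopes. The case `M = 1` is the ordinary case
(if `κ = m`); the assumption `M τ ≠ 0` says that `1 / 2` is not a slope. Slopes are rational, so
integral weights `M` are no restriction.

Let `K i` be finitely many CM fields, of degrees `2 g i`, that are pairwise independent: for `i ≠ k`
and all complex embeddings `φ` of `K i` and `ψ` of `K k` some automorphism of `ℂ` is the identity on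
`φ (K i)` and the complex conjugation on `ψ (K k)` (this is no condition for one field). Let `M i`
be weights as above all of whose values divide `n i`. There are `2 ^ (∑ i, g i)` families of
`p`-adic types `Φ i` of the fields `K i`.

A family is exceptional (`exceptionalFamilies p K M`) if for some Weil numbers `π i` in `K i` with
these slopes (with a common `κ`), for some semisimple `F i` with eigenvalues conjugate to `π i`
(with any multiplicities: the Frobenius on the first crystalline cohomology of powers of abelian
varieties), and some power of the `F i`, some Tate class in a tensor product of these spaces (a
multilinear form in any number of variables which `F ^ s` multiplies by `c ^ s`,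
`c ^ 2 = p ^ (∑ m)`) is not a linear combination of products of Tate classes in two variables. So
for all families that are not exceptional all Tate classes, in all codimensions, on all products of
powers of these abelian varieties, over all finite extensions of the base field, are combinations of
products of Tate classes of degree two; these are classes of divisors by the theorem of Tate.
The vector spaces are over an algebraically closed field of characteristic zero; Tate classes over
the field of fractions of the Witt vectors that are combinations of products of Tate classes of
degree two over an algebraically closed field containing it are such combinations over the field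
itself. So Q1 holds for all products of powers of these abelian varieties.

The theorem bounds the number of the exceptional families: it is at most
`2 ^ (∑ i, g i) * ∑ i, ρ (K i)`. Here `ρ (K)` (`rho n g φ₀`) is described as follows. The
automorphisms of `ℂ` act on the set of the `2 g` complex embeddings of `K` through a finite group
`G` (the Galois group of the normal closure), and so on the space `V`, of dimension `g`, of the
rational functions on this set that change their sign under complex conjugation. Then `ρ (K)` is the
sum of the numbers `w (W)` (`weight n g φ₀ W`) over the isotypic components `W` of `V`
(`components K`):

* `w (W) = 0` if `n` is odd and every minimal Galois-stable space in `W` contains a function with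
  integral values whose sum over a CM type is odd;
* otherwise `w (W) = (2 d / (π g)) ^ (d / 2)` if `W` is itself a minimal space, of dimension `d`;
* otherwise `w (W)` is the smaller of `(53 λ d / g) ^ (c / 2)` (if
  `(10 ^ 4 + 10 λ) ^ 2 λ d ≤ 2 g`; replaced by `1` if not) and
  `8 (2 d / (π g)) ^ (d / 2) (10 ^ 4 + 10 λ + 6 √(d g)) ^ (d - c)`. Here `λ = log (|G| n)`,
  `d = dim S` for the minimal spaces `S` in `W`, and `c = e + d - h`, where `e` is the dimension of
  the space of the equivariant endomorphisms of `S` and `h` the dimension of the space of the
  functions in `S` that are invariant under the stabilizer of a complex embedding.

Let `Q` be the number of the imaginary quadratic subfields of `K` and `N d` the number of the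
components `W` that are minimal spaces of dimension `d`. The second part (`RhoEstimate`) is the
estimate `ρ (K) ≤ Q / √g + 2 (N 2 + 1) / g + 3 N 3 / g ^ (3 / 2) + ∑ w (W)`, where the last sum is
over the components `W` which are not minimal, and the term `Q / √g` is omitted if `n g` is odd. The
third part (`NoMultipleComponents`) says that there are no such components if `K` is abelian over
`ℚ`, or if any two complex embeddings of `K` are exchanged by some automorphism of `ℂ` (for instance
`K = k F` for an imaginary quadratic field `k` and a totally real field `F` with this property, such
as the fields of degree `binomial (n, m)` which belong to the sets with `m` elements of roots of a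
polynomial of degree `n` with real roots and Galois group `S_n`). Always `N 3 ≤ g / 3`; if `K` is
cyclic over `ℚ` then `g` is odd or `Q = 0`, and `N 2 ≤ 2`, `N 3 = 0`.

The proof: the sign function of an exceptional type, multiplied by `M`, is orthogonal to a minimal
Galois-stable space. The number of these sign functions is estimated by a Fourier integral and the
inequality of Hölder. There are in general infinitely many minimal spaces isomorphic to `S`, but
modulo a prime number `ℓ` that does not divide `|G| n` there are only about `ℓ ^ (h - e)` of them.
-/

namespace Pool.Agent.Results.MP_60ec62_ag.AlmostAllSlopeTypes

open NumberField Module Pool.Agent.H204R3.CM Pool.Agent.H977R3.CM Pool.Agent.TH170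
  Pool.Agent.TH170.FW

open Pool.Agent.TH170.QD (NoMultipleComponents)

/-- **The crystalline Tate conjecture for all products of powers of the abelian varieties over
finite fields with almost all slope types of CM fields.** -/
theorem result :
    (∀ (p : ℕ) [Fact p.Prime] {I : Type} [Fintype I] (K : I → Type) [∀ i, Field (K i)]
      [∀ i, NumberField (K i)] [∀ i, IsCMField (K i)] (M : ∀ i, (K i →+* PadicAlgCl p) → ℤ)
      (n g : I → ℕ) (φ₀ : ∀ i, K i →+* ℂ), PairwiseIndep K → (∀ i τ, M i (cbar τ) = M i τ) →
      (∀ i, n i ≠ 0) → (∀ i τ, M i τ ∣ (n i : ℤ)) → (∀ i, finrank ℚ (K i) = 2 * g i) →
      ((exceptionalFamilies p K M).ncard : ℝ) ≤
        2 ^ (∑ i, g i) * ∑ i, rho (n i) (g i) (φ₀ i)) ∧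
    RhoEstimate ∧ NoMultipleComponents :=
  ⟨fun p _ _ _ K _ _ _ M n g φ₀ hind hM hn hMn hg =>
    ncard_exceptionalFamilies_le p K M n g φ₀ hind hM hn hMn hg, rhoEstimate, QD.rho_bounds.2⟩

end Pool.Agent.Results.MP_60ec62_ag.AlmostAllSlopeTypes
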